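import Mathlib
import Pool.Agent.R473.DW.Wrd

/-!
# Multiple zeta values of all depths at the arguments `a_i n + b_i`: `S`-units and digits
-/

set_option autoImplicit false

namespace Pool.Agent.Results.MP_cbe134_nt.AllDepths

open Pool.Agent.R473.DW Pool.Agent.Y760.RT Pool.Agent.TH507.ZS Pool.Agent.R473.TB

/-- `trunc [s_1, ..., s_r] m` is the sum of `∏ n_i ^ (-s_i)` over `m > n_1 > ... > n_r ≥ 1` -/
noncomputable def trunc : List ℕ → ℕ → ℝ
  | [], _ => 1
  | s :: l, m => ∑ j ∈ Finset.Ico 1 m, trunc l j / (j : ℝ) ^ s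

/-- the multiple zeta value `ζ(s_1, ..., s_r)` of depth `r` and weight `s_1 + ... + s_r` -/
noncomputable def mzv : List ℕ → ℝ
  | [] => 1
  | s :: l => ∑' m : ℕ, trunc l (m + 1) / ((m + 1 : ℕ) : ℝ) ^ s

/-- the multiple zeta value `ζ(a_1 n + b_1, ..., a_r n + b_r)` of depth `r` and weight
`(a_1 + ... + a_r) n + b_1 + ... + b_r`, for `w = [(a_1, b_1), ..., (a_r, b_r)]`, `a_i ≥ 1` -/
noncomputable def value (n : ℕ) (w : List (ℕ+ × ℕ)) : ℝ :=
  mzv (w.map fun x => (x.1 : ℕ) * n + x.2)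

/-- the `k`-th digit after the point of `x` in base `b` (`k = 0` is the first one) -/
noncomputable def digit (b : ℕ) (x : ℝ) (k : ℕ) : ℤ := ⌊(b : ℝ) ^ (k + 1) * x⌋ % b

/-- the number of different blocks of `n` consecutive digits of `x` in base `b` -/
noncomputable def blocks (b : ℕ) (x : ℝ) (n : ℕ) : ℕ :=
  (Set.range fun i : ℕ => fun j : Fin n => digit b x (i + j)).ncard

/-- `D` is a sum of `R` terms `a ∏ p ^ k(p)` over `p ∈ S`, with integers `|a| ≤ R` and integers
`|k(p)| ≤ X` -/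
def SUnitSum (S : Finset ℕ) (R : ℕ) (X : ℝ) (D : ℚ) : Prop :=
  ∃ (a : Fin R → ℤ) (k : Fin R → ℕ → ℤ), (∀ r, |a r| ≤ R) ∧ (∀ r, ∀ p ∈ S, |(k r p : ℝ)| ≤ X) ∧
    D = ∑ r, (a r : ℚ) * ∏ p ∈ S, (p : ℚ) ^ k r p

lemma expand_one (w : List (ℕ+ × ℕ)) :
    Pool.Agent.Y760.ST.expand (Finsupp.single [w] 1) = Finsupp.single w 1 := by
  rw [Pool.Agent.Y760.ST.expand, Finsupp.linearCombination_single, one_smul]
  cases w <;> simp [Pool.Agent.TH507.WD.stl, Pool.Agent.TH507.WD.st]

lemma valP_one (n : ℕ) (w : List (ℕ+ × ℕ)) :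
    Pool.Agent.Y760.ST.valP n (Finsupp.single [w] 1) = value n w := by
  have h1 : ∀ l m, trunc l m = Pool.Agent.TH507.WD.hr l m := by
    intro l
    induction l with
    | nil => intro m; rw [trunc, Pool.Agent.TH507.WD.hr]
    | cons s l ih =>
      intro m
      rw [trunc, Pool.Agent.TH507.WD.hr]
      exact Finset.sum_congr rfl fun j _ => by rw [ih]
  have h2 : ∀ l, mzv l = Pool.Agent.TH507.WD.mz l := by
    intro l
    cases l with
    | nil => rw [mzv, Pool.Agent.TH507.WD.mz]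
    | cons s l =>
      rw [mzv, Pool.Agent.TH507.WD.mz]
      exact tsum_congr fun k => by rw [h1]
  rw [Pool.Agent.Y760.ST.valP, Finsupp.linearCombination_single, one_smul, value, h2]
  simp [Pool.Agent.TH507.WD.ar]

/-- **Result.** Let `W` be a finite set of nonempty words in the letters `(a, b)`, `a ≥ 1`, and for
`w = (a_1, b_1) ⋯ (a_r, b_r)` let `ζ(w; n) = ζ(a_1 n + b_1, …, a_r n + b_r)`; the depths `r` and the
weights are arbitrary.
(1) For every finite set `S` of primes there is `K ≥ 2` such that for all `R`, `C` and `B > 1`, all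
large `n`, all `D_w`, not all zero, which are sums of at most `R` `S`-units of height
exponential in `C n`, and all integers `p`:
`|∑ D_w ζ(w; n) - p| > B ^ (-n) min(1, |D_u| K ^ (-n))` for every `u ∈ W`.
(2) For every base `b` there is `κ` such that for all `ε > 0` and `C` and all large `n` no word of
at least `ε n` digits occurs at two different places, not both before `κ n`, in the first `C n`
digits of the expansions of these numbers in base `b`.
(3) For every base `b`, `C` and `w` the expansion of `ζ(w; n)` in base `b` has more than `C n`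
different blocks of `n` digits, for all large `n`. -/
theorem result (W : Finset (List (ℕ+ × ℕ))) (hW : [] ∉ W) :
    (∀ S : Finset ℕ, (∀ p ∈ S, p.Prime) → ∃ K : ℕ, 2 ≤ K ∧ ∀ (R : ℕ) (C B : ℝ), 1 < B →
      ∃ n0 : ℕ, ∀ n : ℕ, n0 ≤ n → ∀ D : W → ℚ, (∀ w, SUnitSum S R (C * n) (D w)) →
      (∃ w, D w ≠ 0) → ∀ (p : ℤ) (u : W),
      (B ^ n)⁻¹ * min 1 (|(D u : ℝ)| / (K : ℝ) ^ n) < |∑ w : W, (D w : ℝ) * value n w - p|) ∧
    (∀ b : ℕ, 2 ≤ b → ∃ κ : ℝ, ∀ ε C : ℝ, 0 < ε → ∃ n0 : ℕ, ∀ n : ℕ, n0 ≤ n →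
      ∀ (u w : W) (i j : ℕ), (i : ℝ) ≤ C * n → (j : ℝ) ≤ C * n →
      κ * n ≤ max i j → (u, i) ≠ (w, j) → ∃ l : ℕ, (l : ℝ) < ε * n ∧
        digit b (value n u) (i + l) ≠ digit b (value n w) (j + l)) ∧
    (∀ b : ℕ, 2 ≤ b → ∀ w : List (ℕ+ × ℕ), w ≠ [] →
      ∀ C : ℝ, ∃ n0 : ℕ, ∀ n : ℕ, n0 ≤ n → C * n < blocks b (value n w) n) := by
  classical
  have hind : ∀ (v : W → ℚ) (c : ℚ), ∑ w, v w •
      Pool.Agent.Y760.ST.expand (Finsupp.single [(w : List (ℕ+ × ℕ))] 1) =
        Finsupp.single [] c → v = 0 := by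
    intro v c hv
    funext u
    have h1 := DFunLike.congr_fun hv (u : List (ℕ+ × ℕ))
    have hu : (u : List (ℕ+ × ℕ)) ≠ [] := fun he => hW (he ▸ u.2)
    rw [Finsupp.finsetSum_apply, Finsupp.single_eq_of_ne hu, Finset.sum_eq_single u] at h1
    · rw [expand_one, Finsupp.smul_apply, Finsupp.single_eq_same, smul_eq_mul, mul_one] at h1
      exact h1
    · intro w _ hw
      rw [expand_one, Finsupp.smul_apply, Finsupp.single_eq_of_ne, smul_zero]
      exact fun he => hw (Subtype.ext he.symm)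
    · intro hn
      exact absurd (Finset.mem_univ _) hn
  refine ⟨fun S hS => ?_, fun b hb => ?_, fun b hb w hw C => ?_⟩
  · have h1 := wd_forms (fun w : W => Finsupp.single [(w : List (ℕ+ × ℕ))] 1) hind hS
    simp only [valP_one] at h1
    exact h1
  · have h1 := wd_digits (fun w : W => Finsupp.single [(w : List (ℕ+ × ℕ))] 1) hind hb
    simp only [valP_one] at h1
    exact h1
  · have h1 := wd_blocks (Finsupp.single [w] 1) (fun c hc => by
      rw [expand_one] at hc
      have h2 := DFunLike.congr_fun hc w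
      rw [Finsupp.single_eq_same, Finsupp.single_eq_of_ne hw] at h2
      exact one_ne_zero h2) hb C
    simp only [valP_one] at h1
    exact h1

end Pool.Agent.Results.MP_cbe134_nt.AllDepths
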