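import Mathlib
import Pool.Agent.R390.MZ.BK

set_option autoImplicit false

/-!
# The Broadhurst-Kreimer conjecture in infinitely many weights

If the formula of Broadhurst and Kreimer holds for infinitely many weights (and all depths), then
Zagier's dimension formula holds in all weights, and for all weights and depths the real depth
filtration has the same dimensions as the motivic one.  So in every weight the formula for real
multiple zeta values is equivalent to the formula for motivic multiple zeta values, and the
Broadhurst-Kreimer conjecture is equivalent to the conjunction of its validity in infinitely many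
weights and of its motivic version.
-/

open Pool.Agent.R390.MZ MvPolynomial

namespace Pool.Agent.Results.MP_cbe134_nt.InfinitelyManyWeights

/-- Let `mot s`, for admissible indices `s`, be elements of a polynomial ring over `ℚ` in variables
with weights `wt s`, homogeneous of the weight of `s` (the motivic multiple zeta values), and let
`x` be real values of the variables, such that `mot s` has the value `ζ(s)`, and such that there are
exactly `d_k` monomials of weight `k`, whose values span the space `Z_k` of the multiple zeta values
of weight `k` (`d_0 = 1`, `d_1 = 0`, `d_2 = 1`, `d_k = d_(k-2) + d_(k-3)`; a theorem of Brown). Let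
`F` be the Broadhurst-Kreimer series. Assume that the Broadhurst-Kreimer formula for real multiple
zeta values holds in infinitely many weights `k` (for all depths). Then
(1) `dim Z_k = d_k` for all `k`;
(2) for all `k`, `r`, the spans of the `ζ(s)` and of the `mot s`, `s` of weight `k` and depth at most
`r`, have the same dimension;
(3) in every weight `k` the Broadhurst-Kreimer formula holds for real multiple zeta values if and only
if it holds for the motivic ones. -/
theorem result {σ : Type} (wt : σ → ℕ) (x : σ → ℝ) (hB : Gens ZL dz wt x)
    (mot : List ℕ → MvPolynomial σ ℚ)
    (hm : ∀ l : List ℕ, (∀ a ∈ l, 1 ≤ a) → (∀ a ∈ l.head?, 2 ≤ a) →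
      IsWeightedHomogeneous wt (mot l) l.sum ∧ aeval x (mot l) = zt l)
    (F : PowerSeries (Polynomial ℤ)) (hF : IsBK F) (h : ∀ N, ∃ k, N < k ∧ BKat F zt k) :
    (∀ k, Module.finrank ℚ (ZL k) = dz k) ∧
    (∀ r k, Module.finrank ℚ (FilD zt r k) = Module.finrank ℚ (FilD mot r k)) ∧
    ∀ k, BKat F zt k ↔ BKat F mot k :=
  BK_inf hB hm hF h

end Pool.Agent.Results.MP_cbe134_nt.InfinitelyManyWeights
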