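import Mathlib
import Pool.Agent.R404.DZ.E

/-!
# Products of `D` zeta values in the depth filtration

Let `D ≥ 2`, `η < (D - 1) / (D + 1)`, `γ < 1 - D η / (D - 1)` and `ε > η / (D - 1)`. For every large `k`
there is a set of at least `k ^ η` products `ζ(n_1) ... ζ(n_D)` with `n_1 < ... < n_D` and
`n_1 + ... + n_D = k` (elements of `Fil_D(Z_k)`) which satisfy no linear relation with integer
coefficients of total size at most `2 ^ (k ^ γ)`, even modulo real combinations, with coefficients at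
most `C ^ k`, of multiple zeta values with at least `ε k` arguments `≥ 2`.
-/

set_option autoImplicit false

namespace Pool.Agent.Results.MP_cbe134_nt.ProductsInDepth

/-- `trunc [s_1, ..., s_r] m` is the sum of `∏ n_i ^ (-s_i)` over `m > n_1 > ... > n_r ≥ 1` -/
noncomputable def trunc : List ℕ → ℕ → ℝ
  | [], _ => 1
  | s :: l, m => ∑ j ∈ Finset.Ico 1 m, trunc l j / (j : ℝ) ^ s

/-- the multiple zeta value `ζ(s_1, ..., s_r)`, `s_1` belongs to the largest variable -/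
noncomputable def mzv : List ℕ → ℝ
  | [] => 1
  | s :: l => ∑' m : ℕ, trunc l (m + 1) / ((m + 1 : ℕ) : ℝ) ^ s

/-- the zeta value -/
noncomputable def zeta (k : ℕ) : ℝ := ∑' m : ℕ, 1 / ((m + 1 : ℕ) : ℝ) ^ k

/-- the number of arguments `≥ 2` -/
def height (w : List ℕ) : ℕ := w.countP (fun s => decide (2 ≤ s))

/-- nonempty lists of positive integers, the first one at least `2` -/
def Admissible (w : List ℕ) : Prop := (∀ x ∈ w, 1 ≤ x) ∧ ∃ a ∈ w.head?, 2 ≤ a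

lemma trunc_eq (w : List ℕ) : ∀ m, trunc w m = Pool.Agent.Y760.ZG.hr w m := by
  induction w with
  | nil => intro m; rw [trunc, Pool.Agent.Y760.ZG.hr_nil]
  | cons s w ih =>
    intro m
    rw [trunc, Pool.Agent.Y760.ZG.hr_cons]
    exact Finset.sum_congr rfl fun j _ => by rw [ih]

lemma mzv_eq : mzv = Pool.Agent.Y760.ZG.mz := by
  funext w
  cases w with
  | nil => rw [mzv, Pool.Agent.Y760.ZG.mz]
  | cons s w =>
    rw [mzv, Pool.Agent.Y760.ZG.mz]
    exact tsum_congr fun m => by rw [trunc_eq]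

/-- Let `D ≥ 2`, `0 < η`, `η (D + 1) < D - 1`, `γ + D η / (D - 1) < 1`, `η / (D - 1) < ε` and let
`κ, C` be real numbers. For all large `k` there is a set `T` of at least `k ^ η` strictly increasing
`D`-tuples `n` of integers `≥ k / (2 D)` and sum `k` with the following property. For all integers
`c_n` (`n ∈ T`), not all zero, with `∑ |c_n| ≤ 2 ^ (k ^ γ)`, all finite sets `H` of admissible indices
of weight at most `κ k` with at least `ε k` arguments `≥ 2` and all real numbers `b_h` with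
`|b_h| ≤ C ^ k`: `|∑_T c_n ζ(n_1) ... ζ(n_D) - ∑_H b_h ζ(h)| > k ^ (-ε k)`. -/
theorem result (D : ℕ) (hD : 2 ≤ D) (η γ ε κ C : ℝ) (hη : 0 < η) (hη1 : η * (D + 1) < D - 1)
    (hγ : γ + D * η / (D - 1) < 1) (hε : η / (D - 1) < ε) :
    ∃ k0 : ℕ, ∀ k : ℕ, k0 ≤ k → ∃ T : Finset (Fin D → ℕ), (k : ℝ) ^ η ≤ T.card ∧
      (∀ n ∈ T, StrictMono n ∧ ∑ j, n j = k ∧ ∀ j, k ≤ 2 * D * n j) ∧
      ∀ c : (Fin D → ℕ) → ℤ, (∃ n ∈ T, c n ≠ 0) →
      ∑ n ∈ T, |(c n : ℝ)| ≤ (2 : ℝ) ^ ((k : ℝ) ^ γ) →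
      ∀ H : Finset (List ℕ),
      (∀ h ∈ H, Admissible h ∧ (h.sum : ℝ) ≤ κ * k ∧ ε * k ≤ height h) →
      ∀ b : List ℕ → ℝ, (∀ h ∈ H, |b h| ≤ C ^ k) →
      ((k : ℝ) ^ (ε * k))⁻¹ <
        |∑ n ∈ T, (c n : ℝ) * ∏ j, zeta (n j) - ∑ h ∈ H, b h * mzv h| := by
  rw [mzv_eq]
  obtain ⟨k0, h0⟩ := Pool.Agent.R404.DZ.asyD D hD γ ε κ C η hη hη1 hγ hε
  refine ⟨k0, fun k hk => ?_⟩
  obtain ⟨T, h1, h2, h3⟩ := h0 k hk
  refine ⟨T, h1, h2, fun c hc hl H hH b hb => ?_⟩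
  exact h3 c hc hl H (fun h hh => ⟨(hH h hh).1.1, fun x hx => by
    obtain ⟨a, ha, h5⟩ := (hH h hh).1.2
    rw [Option.mem_def] at ha hx
    rw [ha, Option.some_inj] at hx
    rwa [← hx], (hH h hh).2.1, (hH h hh).2.2⟩) b hb

end Pool.Agent.Results.MP_cbe134_nt.ProductsInDepth
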