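import Mathlib
import Pool.Agent.R404.WZ.M

/-!
# Multiple zeta values of weight `k` and depth `D`

Let `D ≥ 2`, `η < (D - 1) / (D + 1)`, `γ < 1 - D η / (D - 1)` and `ε > η / (D - 1)`. For every large `k`
there is a set of at least `k ^ η` multiple zeta values of weight `k` and depth `D` which satisfy no
linear relation with integer coefficients of total size at most `2 ^ (k ^ γ)`, even modulo real
combinations, with coefficients at most `C ^ k`, of multiple zeta values with at least `ε k`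
arguments `≥ 2`.
-/

set_option autoImplicit false

namespace Pool.Agent.Results.MP_cbe134_nt.ValuesInDepth

/-- `trunc [s_1, ..., s_r] m` is the sum of `∏ n_i ^ (-s_i)` over `m > n_1 > ... > n_r ≥ 1` -/
noncomputable def trunc : List ℕ → ℕ → ℝ
  | [], _ => 1
  | s :: l, m => ∑ j ∈ Finset.Ico 1 m, trunc l j / (j : ℝ) ^ s

/-- the multiple zeta value `ζ(s_1, ..., s_r)`, `s_1` belongs to the largest variable -/
noncomputable def mzv : List ℕ → ℝ
  | [] => 1
  | s :: l => ∑' m : ℕ, trunc l (m + 1) / ((m + 1 : ℕ) : ℝ) ^ s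

/-- the number of arguments `≥ 2` -/
def height (w : List ℕ) : ℕ := w.countP (fun s => decide (2 ≤ s))

/-- nonempty lists of positive integers, the first one at least `2` -/
def Admissible (w : List ℕ) : Prop := (∀ x ∈ w, 1 ≤ x) ∧ ∃ a ∈ w.head?, 2 ≤ a

lemma trunc_eq (w : List ℕ) : ∀ m, trunc w m = Pool.Agent.Y760.ZG.hr w m := by
  induction w with
  | nil => intro m; rw [trunc, Pool.Agent.Y760.ZG.hr_nil]
  | cons s w ih =>
    intro m
    rw [trunc, Pool.Agent.Y760.ZG.hr_cons]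
    exact Finset.sum_congr rfl fun j _ => by rw [ih]

lemma mzv_eq : mzv = Pool.Agent.Y760.ZG.mz := by
  funext w
  cases w with
  | nil => rw [mzv, Pool.Agent.Y760.ZG.mz]
  | cons s w =>
    rw [mzv, Pool.Agent.Y760.ZG.mz]
    exact tsum_congr fun m => by rw [trunc_eq]

/-- Let `D ≥ 2`, `0 < η`, `η (D + 1) < D - 1`, `γ + D η / (D - 1) < 1`, `η / (D - 1) < ε` and let
`κ, C` be real numbers. For all large `k` there is a set `T` of at least `k ^ η` indices of weight `k`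
and depth `D`, with all arguments at least `k / (2 D)`, with the following property. For all integers
`c_w` (`w ∈ T`), not all zero, with `∑ |c_w| ≤ 2 ^ (k ^ γ)`, all finite sets `H` of admissible indices
of weight at most `κ k` with at least `ε k` arguments `≥ 2` and all real numbers `b_h` with
`|b_h| ≤ C ^ k`: `|∑_T c_w ζ(w) - ∑_H b_h ζ(h)| > k ^ (-ε k)`. -/
theorem result (D : ℕ) (hD : 2 ≤ D) (η γ ε κ C : ℝ) (hη : 0 < η) (hη1 : η * (D + 1) < D - 1)
    (hγ : γ + D * η / (D - 1) < 1) (hε : η / (D - 1) < ε) :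
    ∃ k0 : ℕ, ∀ k : ℕ, k0 ≤ k → ∃ T : Finset (List ℕ), (k : ℝ) ^ η ≤ T.card ∧
      (∀ w ∈ T, w.length = D ∧ w.sum = k ∧ ∀ s ∈ w, k ≤ 2 * D * s) ∧
      ∀ c : List ℕ → ℤ, (∃ w ∈ T, c w ≠ 0) →
      ∑ w ∈ T, |(c w : ℝ)| ≤ (2 : ℝ) ^ ((k : ℝ) ^ γ) →
      ∀ H : Finset (List ℕ),
      (∀ h ∈ H, Admissible h ∧ (h.sum : ℝ) ≤ κ * k ∧ ε * k ≤ height h) →
      ∀ b : List ℕ → ℝ, (∀ h ∈ H, |b h| ≤ C ^ k) →
      ((k : ℝ) ^ (ε * k))⁻¹ < |∑ w ∈ T, (c w : ℝ) * mzv w - ∑ h ∈ H, b h * mzv h| := by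
  rw [mzv_eq]
  obtain ⟨k0, h0⟩ := Pool.Agent.R404.WZ.asyMD D hD γ ε κ C η hη hη1 hγ hε
  refine ⟨k0, fun k hk => ?_⟩
  obtain ⟨T, h1, h2, h3⟩ := h0 k hk
  refine ⟨T, h1, h2, fun c hc hl H hH b hb => ?_⟩
  have h4 := h3 0 c (Or.inr hc) (by rw [Int.cast_zero, abs_zero, zero_add]; exact hl) H
    (fun h hh => ⟨(hH h hh).1.1, fun x hx => by
      obtain ⟨a, ha, h5⟩ := (hH h hh).1.2
      rw [Option.mem_def] at ha hx
      rw [ha, Option.some_inj] at hx
      rwa [← hx], (hH h hh).2.1, (hH h hh).2.2⟩) b hb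
  rwa [Int.cast_zero, zero_add] at h4

end Pool.Agent.Results.MP_cbe134_nt.ValuesInDepth
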